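import Mathlib

set_option autoImplicit false

namespace Pool.Agent.K9h70.RE

open Finset Matrix MeasureTheory

/-- M -/
def S_QT : Prop := ∀ (n : Type) [Fintype n] [DecidableEq n] (M : Matrix n n ℂ), M.IsHermitian →
  ∀ (m : ℕ) (a : n → ℂ), ‖star a ⬝ᵥ (M *ᵥ a)‖ ^ (2 ^ (m + 1)) ≤
    (∑ i, ‖a i‖ ^ 2) ^ (2 ^ (m + 1)) * ((M ^ (2 ^ (m + 1))).trace).re

/-- T -/
def S_TR : Prop := ∀ (n : Type) [Fintype n] [DecidableEq n] (A : Matrix n n ℂ) (k : ℕ), 1 ≤ k →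
  (A ^ k).trace = ∑ p : Fin k → n, ∏ j, A (p j) (p (finRotate k j))

/-- W -/
def S_WC : Prop := ∀ (k : ℕ), 1 ≤ k → ∀ (I J : Type) [Fintype I] [Fintype J] [DecidableEq I]
  [DecidableEq J] (l : I → ℝ), Function.Injective l →
  (univ.filter fun q : (Fin k → I) × (Fin k → J) =>
     ∀ s : J, ∑ j ∈ univ.filter (fun j => q.2 j = s), (l (q.1 (finRotate k j)) - l (q.1 j)) = 0).card ≤
    (k * (Fintype.card I + Fintype.card J)) ^ (k + 1)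

/-- L -/
def S_LG : Prop := ∀ (k N : ℕ), 1 ≤ N → ∀ (J : Finset (Fin k)) (a b : Fin k → ℕ),
  (∀ j, 1 ≤ a j ∧ a j ≤ N) → (∀ j, 1 ≤ b j ∧ b j ≤ N) →
  ∑ j ∈ J, (Real.log (a j) - Real.log (b j)) ≠ 0 →
  1 / (N : ℝ) ^ k ≤ |∑ j ∈ J, (Real.log (a j) - Real.log (b j))|

end Pool.Agent.K9h70.RE
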