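import Mathlib
import Pool.Agent.K9h70.RE.Stmts

set_option autoImplicit false

namespace Pool.Agent.K9h70.RE

open Finset MeasureTheory Set Matrix

variable {I J : Type} [Fintype I] [Fintype J] [DecidableEq I] [DecidableEq J]

/-- the unimodular matrix -/
noncomputable def Z (φ : J → I → ℝ → ℝ) (u : ℝ) (j : J) (i : I) : ℂ :=
  Complex.exp (((φ j i u : ℝ) : ℂ) * Complex.I)

/-- the Gram matrix -/
noncomputable def Gm (φ : J → I → ℝ → ℝ) (u : ℝ) : Matrix I I ℂ :=
  fun i i' => ∑ j, (starRingEnd ℂ) (Z φ u j i) * Z φ u j i'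

/-- the phase of a closed walk -/
def ph {k : ℕ} (φ : J → I → ℝ → ℝ) (q : (Fin k → I) × (Fin k → J)) (u : ℝ) : ℝ :=
  ∑ l, (φ (q.2 l) (q.1 (finRotate k l)) u - φ (q.2 l) (q.1 l) u)

theorem gm_herm (φ : J → I → ℝ → ℝ) (u : ℝ) : (Gm φ u).IsHermitian := by
  ext i i'
  rw [conjTranspose_apply]
  unfold Gm
  rw [star_sum]
  apply Finset.sum_congr rfl
  intro j _
  rw [star_mul']
  rw [← starRingEnd_apply, ← starRingEnd_apply, Complex.conj_conj, mul_comm]

theorem gm_quad (φ : J → I → ℝ → ℝ) (u : ℝ) (a : I → ℂ) :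
    star a ⬝ᵥ (Gm φ u *ᵥ a) = ((∑ j, ‖∑ i, a i * Z φ u j i‖ ^ 2 : ℝ) : ℂ) := by
  have h1 : ∀ j, ((‖∑ i, a i * Z φ u j i‖ ^ 2 : ℝ) : ℂ) =
      ∑ i, ∑ i', (starRingEnd ℂ (a i) * starRingEnd ℂ (Z φ u j i)) * (a i' * Z φ u j i') := by
    intro j
    push_cast
    rw [← Complex.conj_mul', map_sum, Finset.sum_mul_sum]
    simp only [map_mul]
  rw [Complex.ofReal_sum]
  simp only [h1]
  unfold dotProduct mulVec dotProduct
  rw [Finset.sum_comm]
  apply Finset.sum_congr rfl
  intro i _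
  rw [Finset.mul_sum, Finset.sum_comm]
  apply Finset.sum_congr rfl
  intro i' _
  unfold Gm
  rw [Finset.sum_mul, Finset.mul_sum]
  apply Finset.sum_congr rfl
  intro j _
  rw [Pi.star_apply, ← starRingEnd_apply]
  ring

theorem gm_trace (hTR : S_TR) (φ : J → I → ℝ → ℝ) (u : ℝ) {k : ℕ} (hk : 1 ≤ k) :
    ((Gm φ u ^ k).trace).re = ∑ q : (Fin k → I) × (Fin k → J), Real.cos (ph φ q u) := by
  rw [hTR I (Gm φ u) k hk]
  have h1 : ∀ p : Fin k → I, ∏ l, Gm φ u (p l) (p (finRotate k l)) =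
      ∑ r : Fin k → J, Complex.exp (((ph φ (p, r) u : ℝ) : ℂ) * Complex.I) := by
    intro p
    unfold Gm
    rw [Finset.prod_univ_sum, Fintype.piFinset_univ]
    apply Finset.sum_congr rfl
    intro r _
    unfold ph
    push_cast
    rw [Finset.sum_mul, Complex.exp_sum]
    apply Finset.prod_congr rfl
    intro l _
    unfold Z
    rw [← Complex.exp_conj, ← Complex.exp_add]
    congr 1
    rw [map_mul, Complex.conj_ofReal, Complex.conj_I]
    ring
  simp only [h1]
  rw [Complex.re_sum, Fintype.sum_prod_type]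
  apply Finset.sum_congr rfl
  intro p _
  rw [Complex.re_sum]
  apply Finset.sum_congr rfl
  intro r _
  rw [Complex.exp_ofReal_mul_I_re]

theorem abs_main (hQT : S_QT) (hTR : S_TR) (φ : J → I → ℝ → ℝ) (hφ : ∀ j i, Continuous (φ j i))
    (m : ℕ) {k : ℕ} (hk : k = 2 ^ (m + 1)) (Deg : Finset ((Fin k → I) × (Fin k → J))) {η H : ℝ}
    (hη : 0 ≤ η) (hH : 0 < H)
    (hnd : ∀ q ∉ Deg, |∫ u in (0:ℝ)..1, Real.cos (ph φ q u)| ≤ η) :
    volume {u : ℝ | u ∈ Icc (0:ℝ) 1 ∧ ∃ a : I → ℂ,
      H * ∑ i, ‖a i‖ ^ 2 < ∑ j, ‖∑ i, a i * Z φ u j i‖ ^ 2} ≤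
    ENNReal.ofReal (((Deg.card : ℝ) + ((Fintype.card I : ℝ) * Fintype.card J) ^ k * η) /
      H ^ k) := by
  classical
  have hk1 : 1 ≤ k := by rw [hk]; exact Nat.one_le_two_pow
  set F : ℝ → ℝ := fun u => ((Gm φ u ^ k).trace).re with hF
  have hF2 : ∀ u, F u = ∑ q : (Fin k → I) × (Fin k → J), Real.cos (ph φ q u) :=
    fun u => gm_trace hTR φ u hk1
  have hphc : ∀ q : (Fin k → I) × (Fin k → J), Continuous fun u => Real.cos (ph φ q u) := by
    intro q
    apply Real.continuous_cos.comp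
    unfold ph
    apply continuous_finset_sum
    intro l _
    exact (hφ _ _).sub (hφ _ _)
  have hFc : Continuous F := by
    have : F = fun u => ∑ q : (Fin k → I) × (Fin k → J), Real.cos (ph φ q u) := funext hF2
    rw [this]
    exact continuous_finset_sum _ (fun q _ => hphc q)
  have hquad : ∀ (u : ℝ) (a : I → ℂ), (∑ j, ‖∑ i, a i * Z φ u j i‖ ^ 2) ^ k ≤
      (∑ i, ‖a i‖ ^ 2) ^ k * F u := by
    intro u a
    have h := hQT I (Gm φ u) (gm_herm φ u) m a
    rw [← hk, gm_quad, Complex.norm_real, Real.norm_of_nonneg (by positivity)] at h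
    exact h
  have hF0 : ∀ u, 0 ≤ F u := by
    intro u
    rcases isEmpty_or_nonempty I with hI | hI
    · rw [hF2]
      have : IsEmpty (Fin k → I) := by
        haveI : Nonempty (Fin k) := ⟨⟨0, hk1⟩⟩
        infer_instance
      rw [Finset.sum_eq_zero]
      intro q _
      exact (this.false q.1).elim
    · obtain ⟨i0⟩ := hI
      have h := hquad u (Pi.single i0 1)
      have h2 : (∑ i, ‖(Pi.single i0 1 : I → ℂ) i‖ ^ 2) = 1 := by
        rw [Finset.sum_eq_single i0]
        · simp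
        · intro b _ hb
          rw [Pi.single_eq_of_ne hb]
          simp
        · intro h
          exact absurd (Finset.mem_univ _) h
      rw [h2, one_pow, one_mul] at h
      exact le_trans (by positivity) h
  have hint : ∫ u in Icc (0:ℝ) 1, F u ≤
      (Deg.card : ℝ) + ((Fintype.card I : ℝ) * Fintype.card J) ^ k * η := by
    rw [integral_Icc_eq_integral_Ioc, ← intervalIntegral.integral_of_le zero_le_one]
    simp only [hF2]
    rw [intervalIntegral.integral_finset_sum (fun q _ => (hphc q).intervalIntegrable _ _)]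
    rw [← Finset.sum_add_sum_compl Deg]
    apply add_le_add
    · calc ∑ q ∈ Deg, ∫ u in (0:ℝ)..1, Real.cos (ph φ q u) ≤ ∑ q ∈ Deg, (1 : ℝ) := by
            apply Finset.sum_le_sum
            intro q _
            have h3 : ‖∫ u in (0:ℝ)..1, Real.cos (ph φ q u)‖ ≤ 1 * |1 - 0| := by
              apply intervalIntegral.norm_integral_le_of_norm_le_const
              intro x _
              exact Real.abs_cos_le_one _
            rw [Real.norm_eq_abs] at h3
            have h4 := le_abs_self (∫ u in (0:ℝ)..1, Real.cos (ph φ q u))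
            norm_num at h3
            linarith
        _ = Deg.card := by simp
    · calc ∑ q ∈ Degᶜ, ∫ u in (0:ℝ)..1, Real.cos (ph φ q u) ≤ ∑ q ∈ Degᶜ, η := by
            apply Finset.sum_le_sum
            intro q hq
            exact (le_abs_self _).trans (hnd q (Finset.mem_compl.1 hq))
        _ = (Degᶜ.card : ℝ) * η := by simp
        _ ≤ ((Fintype.card I : ℝ) * Fintype.card J) ^ k * η := by
            apply mul_le_mul_of_nonneg_right _ hη
            have h1 : (Degᶜ).card ≤ (Fintype.card I * Fintype.card J) ^ k := by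
              refine (Finset.card_le_univ _).trans ?_
              rw [Fintype.card_prod, Fintype.card_fun, Fintype.card_fun, Fintype.card_fin, mul_pow]
            exact_mod_cast h1
  have hHk : 0 < H ^ k := by positivity
  have hsub : {u : ℝ | u ∈ Icc (0:ℝ) 1 ∧ ∃ a : I → ℂ,
      H * ∑ i, ‖a i‖ ^ 2 < ∑ j, ‖∑ i, a i * Z φ u j i‖ ^ 2} ⊆ {u | u ∈ Icc (0:ℝ) 1 ∧ H ^ k ≤ F u} := by
    rintro u ⟨hu, a, ha⟩
    refine ⟨hu, ?_⟩
    have h1 := hquad u a
    have hs : 0 < ∑ i, ‖a i‖ ^ 2 := by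
      by_contra hcon
      have h0 : ∑ i, ‖a i‖ ^ 2 = 0 := le_antisymm (not_lt.1 hcon) (by positivity)
      have h2 : ∀ i, a i = 0 := by
        intro i
        have h3 := (Finset.sum_eq_zero_iff_of_nonneg (fun i _ => by positivity)).1 h0 i (Finset.mem_univ _)
        have h4 : ‖a i‖ = 0 := by
          rcases pow_eq_zero_iff (two_ne_zero) |>.1 h3 with h5
          exact h5
        exact norm_eq_zero.1 h4
      rw [h0] at ha
      simp [h2] at ha
    have h2 : (H * ∑ i, ‖a i‖ ^ 2) ^ k ≤ (∑ i, ‖a i‖ ^ 2) ^ k * F u :=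
      le_trans (pow_le_pow_left₀ (by positivity) ha.le _) h1
    rw [mul_pow, mul_comm] at h2
    exact le_of_mul_le_mul_left h2 (by positivity)
  have hfi : IntegrableOn F (Icc 0 1) := hFc.continuousOn.integrableOn_Icc
  have hmk := mul_meas_ge_le_integral_of_nonneg (μ := volume.restrict (Icc (0:ℝ) 1)) (f := F)
    (Filter.Eventually.of_forall hF0) hfi (H ^ k)
  have hmeas : MeasurableSet {u : ℝ | H ^ k ≤ F u} := (isClosed_le continuous_const hFc).measurableSet
  have hv : volume {u | u ∈ Icc (0:ℝ) 1 ∧ H ^ k ≤ F u} = (volume.restrict (Icc (0:ℝ) 1)) {u | H ^ k ≤ F u} := by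
    rw [Measure.restrict_apply hmeas]
    congr 1
    ext u
    simp only [Set.mem_ofPred_eq, mem_inter_iff]
    tauto
  refine (measure_mono hsub).trans ?_
  rw [hv]
  have hfin : (volume.restrict (Icc (0:ℝ) 1)) {u | H ^ k ≤ F u} ≠ ⊤ := measure_ne_top _ _
  rw [← ENNReal.ofReal_toReal hfin]
  apply ENNReal.ofReal_le_ofReal
  rw [le_div_iff₀ hHk]
  have h5 : H ^ k * ((volume.restrict (Icc (0:ℝ) 1)) {u | H ^ k ≤ F u}).toReal ≤ ∫ u in Icc (0:ℝ) 1, F u := hmk
  linarith

end Pool.Agent.K9h70.RE
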