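import Mathlib
import Pool.Agent.K9h70.RE.Stmts

/-!
# Leaf LG: a nonzero sum of logarithms of quotients of small integers is not small

Written by helper74 for helper70.
-/

set_option autoImplicit false

namespace Pool.Agent.K9h70.RE

open Finset

theorem lg_aux {P Q D : ℕ} (hP : 1 ≤ P) (hPQ : P < Q) (hQ : Q ≤ D) :
    1 / (D : ℝ) ≤ Real.log Q - Real.log P := by
  have hP0 : (0 : ℝ) < P := by exact_mod_cast hP
  have hPQ' : (P : ℝ) + 1 ≤ Q := by exact_mod_cast hPQ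
  have hQ0 : (0 : ℝ) < Q := by linarith
  have h1 := Real.log_le_sub_one_of_pos (div_pos hP0 hQ0)
  rw [Real.log_div hP0.ne' hQ0.ne'] at h1
  have h2 : 1 / (Q : ℝ) ≤ 1 - P / Q := by
    rw [div_le_iff₀ hQ0, sub_mul, div_mul_cancel₀ _ hQ0.ne']
    linarith
  have h3 : 1 / (D : ℝ) ≤ 1 / Q := one_div_le_one_div_of_le hQ0 (by exact_mod_cast hQ)
  linarith

/-- Leaf LG. -/
theorem t_LG : S_LG := by
  intro k N hN J a b ha hb hne
  have hprodle : ∀ c : Fin k → ℕ, (∀ j, 1 ≤ c j ∧ c j ≤ N) → ∏ j ∈ J, c j ≤ N ^ k := by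
    intro c hc
    calc ∏ j ∈ J, c j ≤ ∏ _j ∈ J, N := prod_le_prod' fun j _ => (hc j).2
      _ = N ^ J.card := by rw [prod_const]
      _ ≤ N ^ k := Nat.pow_le_pow_right hN (by simpa using card_le_univ J)
  have hprod1 : ∀ c : Fin k → ℕ, (∀ j, 1 ≤ c j ∧ c j ≤ N) → 1 ≤ ∏ j ∈ J, c j := fun c hc =>
    Nat.pos_of_ne_zero (prod_ne_zero_iff.2 fun j _ => by have := (hc j).1; omega)
  have hlog : ∀ c : Fin k → ℕ, (∀ j, 1 ≤ c j ∧ c j ≤ N) →
      ∑ j ∈ J, Real.log (c j) = Real.log ((∏ j ∈ J, c j : ℕ) : ℝ) := by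
    intro c hc
    push_cast
    rw [Real.log_prod]
    intro j _
    have := (hc j).1
    have h0 : c j ≠ 0 := by omega
    exact_mod_cast h0
  rw [sum_sub_distrib, hlog a ha, hlog b hb] at hne ⊢
  set P := ∏ j ∈ J, a j with hP
  set Q := ∏ j ∈ J, b j with hQ
  have hcast : ((N ^ k : ℕ) : ℝ) = (N : ℝ) ^ k := by push_cast; rfl
  rw [← hcast]
  rcases lt_trichotomy P Q with h | h | h
  · have h1 := lg_aux (hprod1 a ha) h (hprodle b hb)
    rw [abs_sub_comm]
    exact h1.trans (le_abs_self _)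
  · exact absurd (by rw [h]; ring) hne
  · have h1 := lg_aux (hprod1 b hb) h (hprodle a ha)
    exact h1.trans (le_abs_self _)

end Pool.Agent.K9h70.RE
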