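import Mathlib
import Pool.Agent.K9h70.RE.Stmts

set_option autoImplicit false

namespace Pool.Agent.K9h70.RE

open Finset Matrix

section
variable {n : Type} [Fintype n]

theorem qt_cs (a b : n → ℂ) :
    ‖star a ⬝ᵥ b‖ ^ 2 ≤ (∑ i, ‖a i‖ ^ 2) * (∑ i, ‖b i‖ ^ 2) := by
  have h1 : ‖star a ⬝ᵥ b‖ ≤ ∑ i, ‖a i‖ * ‖b i‖ := by
    refine (norm_sum_le _ _).trans (le_of_eq ?_)
    refine Finset.sum_congr rfl fun i _ => ?_
    rw [norm_mul, Pi.star_apply, norm_star]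
  calc ‖star a ⬝ᵥ b‖ ^ 2 ≤ (∑ i, ‖a i‖ * ‖b i‖) ^ 2 := by
        exact pow_le_pow_left₀ (norm_nonneg _) h1 2
    _ ≤ _ := Finset.sum_mul_sq_le_sq_mul_sq _ _ _

theorem qt_self (v : n → ℂ) : ‖star v ⬝ᵥ v‖ = ∑ i, ‖v i‖ ^ 2 := by
  have h1 : star v ⬝ᵥ v = ((∑ i, ‖v i‖ ^ 2 : ℝ) : ℂ) := by
    rw [dotProduct, Complex.ofReal_sum]
    refine Finset.sum_congr rfl fun i _ => ?_
    rw [Pi.star_apply, Complex.ofReal_pow, ← Complex.conj_mul']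
    rfl
  rw [h1, Complex.norm_real, Real.norm_of_nonneg]
  exact Finset.sum_nonneg fun i _ => by positivity

variable [DecidableEq n]

theorem qt_double (M : Matrix n n ℂ) (hM : M.IsHermitian) (j : ℕ) (a : n → ℂ) :
    ‖star a ⬝ᵥ (M ^ (2 * j) *ᵥ a)‖ = ∑ i, ‖(M ^ j *ᵥ a) i‖ ^ 2 := by
  have hj : (M ^ j)ᴴ = M ^ j := (hM.pow j)
  rw [← qt_self, star_mulVec, hj, ← dotProduct_mulVec, mulVec_mulVec, ← pow_add, two_mul]

theorem qt_chain (M : Matrix n n ℂ) (hM : M.IsHermitian) (a : n → ℂ) (i : ℕ) :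
    ‖star a ⬝ᵥ (M *ᵥ a)‖ ^ (2 ^ i) ≤
      (∑ i, ‖a i‖ ^ 2) ^ (2 ^ i - 1) * ‖star a ⬝ᵥ (M ^ (2 ^ i) *ᵥ a)‖ := by
  induction i with
  | zero => simp
  | succ i ih =>
    set S := ∑ i, ‖a i‖ ^ 2 with hS
    have hS0 : 0 ≤ S := Finset.sum_nonneg fun i _ => by positivity
    have h1 : ‖star a ⬝ᵥ (M ^ (2 ^ i) *ᵥ a)‖ ^ 2 ≤ S * ‖star a ⬝ᵥ (M ^ (2 ^ (i + 1)) *ᵥ a)‖ := by
      rw [pow_succ' 2 i, qt_double M hM]
      exact qt_cs _ _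
    have h2 : (1 : ℕ) ≤ 2 ^ i := Nat.one_le_two_pow
    calc ‖star a ⬝ᵥ (M *ᵥ a)‖ ^ (2 ^ (i + 1)) = (‖star a ⬝ᵥ (M *ᵥ a)‖ ^ (2 ^ i)) ^ 2 := by
          rw [← pow_mul, pow_succ]
      _ ≤ (S ^ (2 ^ i - 1) * ‖star a ⬝ᵥ (M ^ (2 ^ i) *ᵥ a)‖) ^ 2 := by
          exact pow_le_pow_left₀ (by positivity) ih 2
      _ = (S ^ (2 ^ i - 1)) ^ 2 * ‖star a ⬝ᵥ (M ^ (2 ^ i) *ᵥ a)‖ ^ 2 := by rw [mul_pow]
      _ ≤ (S ^ (2 ^ i - 1)) ^ 2 * (S * ‖star a ⬝ᵥ (M ^ (2 ^ (i + 1)) *ᵥ a)‖) := by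
          exact mul_le_mul_of_nonneg_left h1 (by positivity)
      _ = S ^ (2 ^ (i + 1) - 1) * ‖star a ⬝ᵥ (M ^ (2 ^ (i + 1)) *ᵥ a)‖ := by
          rw [← mul_assoc, ← pow_mul, ← pow_succ]
          congr 2
          rw [pow_succ]
          omega

theorem qt_trace (B : Matrix n n ℂ) (hB : B.IsHermitian) :
    ((B ^ 2).trace).re = ∑ i, ∑ j, ‖B i j‖ ^ 2 := by
  rw [pow_two, trace, Complex.re_sum]
  refine Finset.sum_congr rfl fun i _ => ?_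
  rw [diag_apply, mul_apply, Complex.re_sum]
  refine Finset.sum_congr rfl fun j _ => ?_
  have e : B i j = (starRingEnd ℂ) (B j i) := (hB.apply i j).symm
  have e2 : B i j * B j i = ((‖B j i‖ ^ 2 : ℝ) : ℂ) := by
    rw [e, mul_comm, Complex.mul_conj, Complex.normSq_eq_norm_sq]
  have e3 : ‖B i j‖ = ‖B j i‖ := by
    rw [e, RCLike.norm_conj]
  rw [e2, Complex.ofReal_re, e3]

omit [DecidableEq n] in
theorem qt_frob (B : Matrix n n ℂ) (a : n → ℂ) :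
    ∑ i, ‖(B *ᵥ a) i‖ ^ 2 ≤ (∑ i, ‖a i‖ ^ 2) * ∑ i, ∑ j, ‖B i j‖ ^ 2 := by
  rw [Finset.mul_sum]
  refine Finset.sum_le_sum fun i _ => ?_
  have h1 := qt_cs (fun j => star (B i j)) a
  have h2 : star (fun j => star (B i j)) ⬝ᵥ a = (B *ᵥ a) i := by
    rw [mulVec]
    congr 1
    funext j
    simp
  rw [h2] at h1
  refine h1.trans (le_of_eq ?_)
  rw [mul_comm]
  congr 1
  refine Finset.sum_congr rfl fun j _ => ?_
  rw [norm_star]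

end

theorem t_QT : S_QT := by
  intro n _ _ M hM m a
  have h1 := qt_chain M hM a (m + 1)
  set S := ∑ i, ‖a i‖ ^ 2 with hS
  have hS0 : 0 ≤ S := Finset.sum_nonneg fun i _ => by positivity
  have h2 : ‖star a ⬝ᵥ (M ^ (2 ^ (m + 1)) *ᵥ a)‖ ≤ S * ((M ^ (2 ^ (m + 1))).trace).re := by
    have e : 2 ^ (m + 1) = 2 * 2 ^ m := pow_succ' 2 m
    rw [e, qt_double M hM]
    refine (qt_frob _ _).trans ?_
    rw [← qt_trace _ (hM.pow _), ← pow_mul, mul_comm (2 ^ m) 2]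
  refine h1.trans ?_
  calc S ^ (2 ^ (m + 1) - 1) * ‖star a ⬝ᵥ (M ^ (2 ^ (m + 1)) *ᵥ a)‖
      ≤ S ^ (2 ^ (m + 1) - 1) * (S * ((M ^ (2 ^ (m + 1))).trace).re) :=
        mul_le_mul_of_nonneg_left h2 (by positivity)
    _ = S ^ (2 ^ (m + 1)) * ((M ^ (2 ^ (m + 1))).trace).re := by
        rw [← mul_assoc, ← pow_succ]
        congr 2
        have : (1 : ℕ) ≤ 2 ^ (m + 1) := Nat.one_le_two_pow
        omega

end Pool.Agent.K9h70.RE
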