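import Mathlib
import Pool.Agent.K9h70.RE.Stmts

set_option autoImplicit false

namespace Pool.Agent.K9h70.RE

open Finset Matrix

theorem tr_walk {n : Type} [Fintype n] [DecidableEq n] (A : Matrix n n ℂ) (m : ℕ) :
    ∀ F : n → n → ℂ,
      ∑ p : Fin (m + 1) → n, (∏ l : Fin m, A (p l.castSucc) (p l.succ)) * F (p 0) (p (Fin.last m)) =
        ∑ i, ∑ j, (A ^ m) i j * F i j := by
  induction m with
  | zero =>
    intro F
    have h1 : ∑ p : Fin 1 → n, (∏ l : Fin 0, A (p l.castSucc) (p l.succ)) * F (p 0) (p (Fin.last 0)) =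
        ∑ i, F i i := by
      rw [← (Equiv.funUnique (Fin 1) n).symm.sum_comp]
      refine Finset.sum_congr rfl fun i _ => ?_
      simp
    rw [h1]
    refine Finset.sum_congr rfl fun i _ => ?_
    simp [Matrix.one_apply]
  | succ m ih =>
    intro F
    have h1 : ∑ p : Fin (m + 2) → n, (∏ l : Fin (m + 1), A (p l.castSucc) (p l.succ)) *
          F (p 0) (p (Fin.last (m + 1))) =
        ∑ x, ∑ q : Fin (m + 1) → n, (∏ l : Fin m, A (q l.castSucc) (q l.succ)) *
          (A x (q 0) * F x (q (Fin.last m))) := by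
      rw [← (Fin.consEquiv (fun _ : Fin (m + 2) => n)).sum_comp, Fintype.sum_prod_type]
      refine Finset.sum_congr rfl fun x _ => Finset.sum_congr rfl fun q _ => ?_
      have h2 : ∀ l : Fin (m + 1), (Fin.consEquiv (fun _ : Fin (m + 2) => n)) (x, q) l.succ = q l := by
        intro l
        simp [Fin.consEquiv]
      have h3 : (Fin.consEquiv (fun _ : Fin (m + 2) => n)) (x, q) 0 = x := by
        simp [Fin.consEquiv]
      have h4 : (Fin.consEquiv (fun _ : Fin (m + 2) => n)) (x, q) (Fin.last (m + 1)) =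
          q (Fin.last m) := by
        rw [← Fin.succ_last]
        exact h2 _
      rw [Fin.prod_univ_succ, h3, h4]
      have h5 : ∀ l : Fin m, (Fin.consEquiv (fun _ : Fin (m + 2) => n)) (x, q) l.succ.castSucc =
          q l.castSucc := by
        intro l
        rw [← Fin.succ_castSucc]
        exact h2 _
      simp only [h2, h5, Fin.castSucc_zero, h3]
      ring
    rw [h1]
    refine Finset.sum_congr rfl fun x _ => ?_
    rw [ih fun i j => A x i * F x j, Finset.sum_comm]
    refine Finset.sum_congr rfl fun j _ => ?_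
    rw [pow_succ', Matrix.mul_apply, Finset.sum_mul]
    refine Finset.sum_congr rfl fun i _ => ?_
    ring

theorem t_TR : S_TR := by
  intro n _ _ A k hk
  obtain ⟨m, rfl⟩ : ∃ m, k = m + 1 := ⟨k - 1, by omega⟩
  have h1 := tr_walk A m fun i j => A j i
  have h2 : (A ^ (m + 1)).trace = ∑ i, ∑ j, (A ^ m) i j * A j i := by
    rw [Matrix.trace]
    refine Finset.sum_congr rfl fun i _ => ?_
    rw [Matrix.diag_apply, pow_succ, Matrix.mul_apply]
  rw [h2, ← h1]
  refine Finset.sum_congr rfl fun p _ => ?_
  rw [Fin.prod_univ_castSucc, finRotate_last]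
  congr 1
  refine Finset.prod_congr rfl fun l _ => ?_
  have h3 : finRotate (m + 1) l.castSucc = l.succ := by
    apply Fin.ext
    rw [coe_finRotate_of_ne_last (Fin.castSucc_lt_last l).ne]
    simp
  rw [h3]

end Pool.Agent.K9h70.RE
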