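import Mathlib
import Pool.Agent.K9h70.RE.Stmts

/-!
# Leaf WC: counting closed walks with balanced letters

Written by helper74 for helper70.
-/

set_option autoImplicit false

namespace Pool.Agent.K9h70.RE

open Finset

section wc

variable {k : ℕ} {I J : Type}

open Classical in
/-- the record of a pair of words -/
noncomputable def wc_rec (q : (Fin k → I) × (Fin k → J)) (j : Fin k) : J ⊕ (Fin k × I) :=
  if h : ∃ i, i < j ∧ q.2 i = q.2 j then Sum.inr (Classical.choose h, q.1 j) else Sum.inl (q.2 j)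

theorem wc_rec_y {q q' : (Fin k → I) × (Fin k → J)} (h : ∀ j, wc_rec q j = wc_rec q' j) (j : Fin k) :
    q.2 j = q'.2 j := by
  induction j using WellFoundedLT.induction with
  | _ j ih =>
    have hj := h j
    unfold wc_rec at hj
    by_cases h1 : ∃ i, i < j ∧ q.2 i = q.2 j
    · by_cases h2 : ∃ i, i < j ∧ q'.2 i = q'.2 j
      · rw [dif_pos h1, dif_pos h2, Sum.inr.injEq, Prod.mk.injEq] at hj
        have s1 := Classical.choose_spec h1
        have s2 := Classical.choose_spec h2
        have e1 := ih _ s1.1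
        rw [← s1.2, e1, hj.1]
        exact s2.2
      · rw [dif_pos h1, dif_neg h2] at hj
        exact absurd hj (by simp)
    · by_cases h2 : ∃ i, i < j ∧ q'.2 i = q'.2 j
      · rw [dif_neg h1, dif_pos h2] at hj
        exact absurd hj (by simp)
      · rw [dif_neg h1, dif_neg h2, Sum.inl.injEq] at hj
        exact hj

theorem wc_rec_x {q q' : (Fin k → I) × (Fin k → J)} (h : ∀ j, wc_rec q j = wc_rec q' j) (j : Fin k)
    (hj1 : ∃ i, i < j ∧ q.2 i = q.2 j) : q.1 j = q'.1 j := by
  have hj := h j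
  unfold wc_rec at hj
  by_cases h2 : ∃ i, i < j ∧ q'.2 i = q'.2 j
  · rw [dif_pos hj1, dif_pos h2, Sum.inr.injEq, Prod.mk.injEq] at hj
    exact hj.2
  · rw [dif_pos hj1, dif_neg h2] at hj
    exact absurd hj (by simp)

theorem wc_inj {k : ℕ} [DecidableEq J] {l : I → ℝ} (hl : Function.Injective l)
    {q q' : (Fin (k + 1) → I) × (Fin (k + 1) → J)}
    (hq : ∀ s : J, ∑ j ∈ univ.filter (fun j => q.2 j = s),
      (l (q.1 (finRotate (k + 1) j)) - l (q.1 j)) = 0)
    (hq' : ∀ s : J, ∑ j ∈ univ.filter (fun j => q'.2 j = s),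
      (l (q'.1 (finRotate (k + 1) j)) - l (q'.1 j)) = 0)
    (h0 : q.1 0 = q'.1 0) (h : ∀ j, wc_rec q j = wc_rec q' j) : q = q' := by
  have hy : q.2 = q'.2 := funext (wc_rec_y h)
  refine Prod.ext (funext fun j => ?_) hy
  by_contra hne
  -- the largest index with a difference
  classical
  set S : Finset (Fin (k + 1)) := univ.filter fun j => ¬ q.1 j = q'.1 j with hS
  have hSne : S.Nonempty := ⟨j, by rw [hS]; exact mem_filter.2 ⟨mem_univ _, hne⟩⟩
  set m := S.max' hSne with hm
  have hmS : ¬ q.1 m = q'.1 m := (mem_filter.1 (S.max'_mem hSne)).2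
  have hmax : ∀ i, m < i → q.1 i = q'.1 i := by
    intro i hi
    by_contra hcon
    exact absurd (S.le_max' i (mem_filter.2 ⟨mem_univ _, hcon⟩)) (not_le.2 hi)
  have hnew : ∀ i, i < m → q.2 i ≠ q.2 m := by
    intro i hi hcon
    exact hmS (wc_rec_x h m ⟨i, hi, hcon⟩)
  have hsucc : ∀ i, m ≤ i → q.1 (finRotate (k + 1) i) = q'.1 (finRotate (k + 1) i) := by
    intro i hi
    by_cases hlast : i = Fin.last k
    · rw [hlast, finRotate_last]
      exact h0
    · refine hmax _ ?_
      rw [Fin.lt_def, coe_finRotate_of_ne_last hlast]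
      have := Fin.le_def.1 hi
      omega
  have h1 := hq (q.2 m)
  have h2 := hq' (q.2 m)
  rw [← hy] at h2
  have h3 : ∑ j ∈ univ.filter (fun j => q.2 j = q.2 m),
      ((l (q.1 (finRotate (k + 1) j)) - l (q.1 j)) -
        (l (q'.1 (finRotate (k + 1) j)) - l (q'.1 j))) = 0 := by
    rw [sum_sub_distrib, h1, h2, sub_zero]
  rw [sum_eq_single m] at h3
  · rw [hsucc m le_rfl] at h3
    apply hmS
    apply hl
    linarith
  · intro i hi hne
    have h4 : m < i := by
      rcases lt_trichotomy i m with h5 | h5 | h5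
      · exact absurd (mem_filter.1 hi).2 (hnew i h5)
      · exact absurd h5 hne
      · exact h5
    rw [hsucc i h4.le, hmax i h4]
    ring
  · intro h4
    exact absurd (mem_filter.2 ⟨mem_univ m, rfl⟩ : m ∈ univ.filter fun j => q.2 j = q.2 m) h4

end wc

/-- Leaf WC. -/
theorem t_WC : S_WC := by
  intro k hk I J _ _ _ _ l hl
  obtain ⟨k, rfl⟩ : ∃ k', k = k' + 1 := ⟨k - 1, by omega⟩
  classical
  set F : Finset ((Fin (k + 1) → I) × (Fin (k + 1) → J)) := univ.filter fun q =>
     ∀ s : J, ∑ j ∈ univ.filter (fun j => q.2 j = s),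
       (l (q.1 (finRotate (k + 1) j)) - l (q.1 j)) = 0 with hF
  have h1 : F.card ≤ (univ : Finset (I × (Fin (k + 1) → J ⊕ (Fin (k + 1) × I)))).card := by
    refine card_le_card_of_injOn (fun q => (q.1 0, wc_rec q)) (fun q _ => mem_coe.2 (mem_univ _)) ?_
    intro q hq q' hq' hqq
    have hq1 := (mem_filter.1 (mem_coe.1 hq)).2
    have hq2 := (mem_filter.1 (mem_coe.1 hq')).2
    simp only [Prod.mk.injEq] at hqq
    exact wc_inj hl hq1 hq2 hqq.1 fun j => congrFun hqq.2 j
  refine h1.trans ?_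
  rw [card_univ, Fintype.card_prod, Fintype.card_fun, Fintype.card_sum, Fintype.card_prod,
    Fintype.card_fin]
  set a := Fintype.card I
  set b := Fintype.card J
  have h2 : a ≤ (k + 1) * (a + b) := by
    have : 1 * (a + b) ≤ (k + 1) * (a + b) := Nat.mul_le_mul_right _ (by omega)
    omega
  have h3 : b + (k + 1) * a ≤ (k + 1) * (a + b) := by
    have : 1 * b ≤ (k + 1) * b := Nat.mul_le_mul_right _ (by omega)
    rw [Nat.mul_add]
    omega
  calc a * (b + (k + 1) * a) ^ (k + 1) ≤ ((k + 1) * (a + b)) * ((k + 1) * (a + b)) ^ (k + 1) :=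
        Nat.mul_le_mul h2 (Nat.pow_le_pow_left h3 _)
    _ = _ := by rw [pow_succ' _ (k + 1)]

end Pool.Agent.K9h70.RE
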