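import Mathlib
import Pool.Agent.Y933.KI.Chain
import Pool.Agent.Y933.KI.Vand

set_option autoImplicit false

namespace Pool.Agent.K9h70.RE

open Finset MeasureTheory Set

/-- oscillatory integrals with exponential nodes -/
theorem osc {k : ℕ} (hk : 1 ≤ k) (F : Finset ℕ) (hF : F.card ≤ k) (y c : ℕ → ℝ)
    {Λ δ ylo C c0 T : ℝ} (hΛ : 1 ≤ Λ) (hδ : 0 < δ) (hδ1 : δ ≤ 1) (hylo : 0 < ylo) (hylo1 : ylo ≤ 1)
    (hy : ∀ j ∈ F, ylo ≤ y j ∧ y j ≤ Λ) (hsep : ∀ i ∈ F, ∀ j ∈ F, i ≠ j → δ ≤ |y i - y j|)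
    (hC : 1 ≤ C) (hc : ∀ j ∈ F, |c j| ≤ C) {j0 : ℕ} (hj0 : j0 ∈ F) (hc0 : 0 < c0) (hc01 : c0 ≤ 1)
    (h0 : c0 ≤ |c j0|) (hT : 1 ≤ T) (θ0 : ℝ) :
    |∫ u in (0:ℝ)..1, Real.cos (θ0 + T * ∑ j ∈ F, c j * Real.exp (u * y j))| ≤
      30 * 2 ^ k * Λ ^ 2 * (k * C * Λ * Real.exp Λ) ^ 2 /
        (1 ^ (2 * k) * (c0 * ylo / (2 * Real.pi) * (δ / (2 * Λ)) ^ k) ^ 3) * T ^ (-(1 / (4 * (k : ℝ)))) := by
  have hπ := Real.pi_pos
  have hπ1 : 1 ≤ 2 * Real.pi := by linarith [Real.pi_gt_three]
  have hk1 : (1 : ℝ) ≤ k := by exact_mod_cast hk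
  have hE1 : 1 ≤ Real.exp Λ := Real.one_le_exp (by linarith)
  set D : ℕ → ℝ → ℝ := fun i u => (1 / (2 * Real.pi)) * ∑ j ∈ F, c j * y j * (y j / Λ) ^ i * Real.exp (u * y j)
    with hD
  set lam : ℝ := c0 * ylo / (2 * Real.pi) * (δ / (2 * Λ)) ^ k with hlam
  have hq0 : 0 < δ / (2 * Λ) := by positivity
  have hq1 : δ / (2 * Λ) ≤ 1 := by
    rw [div_le_one (by positivity)]; linarith
  have hlam0 : 0 < lam := by positivity
  have hlam1 : lam ≤ 1 := by
    rw [hlam]
    have h1 : c0 * ylo / (2 * Real.pi) ≤ 1 := by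
      rw [div_le_one (by positivity)]
      nlinarith
    have h2 : (δ / (2 * Λ)) ^ k ≤ 1 := pow_le_one₀ hq0.le hq1
    calc _ ≤ (1 : ℝ) * 1 := by gcongr
      _ = 1 := one_mul 1
  have hexp : ∀ u ∈ Icc (0 : ℝ) 1, ∀ j ∈ F, Real.exp (u * y j) ≤ Real.exp Λ ∧ 1 ≤ Real.exp (u * y j) := by
    intro u hu j hj
    obtain ⟨h1, h2⟩ := hy j hj
    constructor
    · apply Real.exp_le_exp.2
      nlinarith [hu.1, hu.2]
    · apply Real.one_le_exp
      exact mul_nonneg hu.1 (by linarith)
  have hch : Pool.Agent.Y933.KI.Chain D (fun _ => Λ)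
      (fun u => θ0 + T * ∑ j ∈ F, c j * Real.exp (u * y j)) k 1 Λ (k * C * Λ * Real.exp Λ) T := by
    refine ⟨hk, one_pos, le_rfl, hΛ, ?_, hT, ?_, ?_, ?_, ?_, ?_⟩
    · have : (1 : ℝ) ≤ k * C := by nlinarith
      have h2 : (1 : ℝ) ≤ k * C * Λ := by nlinarith
      nlinarith
    · intro i _
      rw [abs_of_nonneg (by linarith)]; exact hΛ
    · intro i _
      rw [abs_of_nonneg (by linarith)]
    · intro i _ u hu
      rw [hD]
      simp only
      rw [abs_mul, abs_of_nonneg (by positivity : 0 ≤ 1 / (2 * Real.pi))]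
      have h1 : |∑ j ∈ F, c j * y j * (y j / Λ) ^ i * Real.exp (u * y j)| ≤ F.card * (C * Λ * Real.exp Λ) := by
        refine (Finset.abs_sum_le_sum_abs _ _).trans ?_
        rw [← nsmul_eq_mul]
        apply Finset.sum_le_card_nsmul
        intro j hj
        obtain ⟨h2, h3⟩ := hy j hj
        rw [abs_mul, abs_mul, abs_mul, abs_of_nonneg (Real.exp_pos _).le, abs_of_nonneg (by linarith : 0 ≤ y j),
          abs_pow, abs_of_nonneg (by apply div_nonneg <;> linarith : 0 ≤ y j / Λ)]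
        have h4 : (y j / Λ) ^ i ≤ 1 := by
          apply pow_le_one₀ (by apply div_nonneg <;> linarith)
          rw [div_le_one (by linarith)]; exact h3
        have h5 : 0 ≤ (y j / Λ) ^ i := pow_nonneg (by apply div_nonneg <;> linarith) _
        calc |c j| * y j * (y j / Λ) ^ i * Real.exp (u * y j) ≤ C * Λ * 1 * Real.exp Λ := by
              have := hc j hj
              have h6 := (hexp u hu j hj).1
              have hyj : 0 ≤ y j := by linarith
              gcongr
          _ = _ := by ring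
      have h2 : (F.card : ℝ) ≤ k := by exact_mod_cast hF
      have h3 : 1 / (2 * Real.pi) ≤ 1 := by
        rw [div_le_one (by positivity)]; exact hπ1
      calc 1 / (2 * Real.pi) * |∑ j ∈ F, c j * y j * (y j / Λ) ^ i * Real.exp (u * y j)| ≤
          1 * (F.card * (C * Λ * Real.exp Λ)) := by
            apply mul_le_mul h3 h1 (abs_nonneg _) zero_le_one
        _ ≤ k * (C * Λ * Real.exp Λ) := by
            rw [one_mul]
            gcongr
        _ = _ := by ring
    · intro i _ u _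
      have h1 : HasDerivAt (fun u => ∑ j ∈ F, c j * y j * (y j / Λ) ^ i * Real.exp (u * y j))
          (∑ j ∈ F, c j * y j * (y j / Λ) ^ i * (Real.exp (u * y j) * (1 * y j))) u := by
        apply HasDerivAt.fun_sum
        intro j _
        exact (((hasDerivAt_id u).mul_const (y j)).exp).const_mul _
      have h2 := h1.const_mul (1 / (2 * Real.pi))
      refine HasDerivAt.congr_deriv h2 ?_
      rw [hD]
      simp only
      rw [mul_left_comm]
      congr 1
      rw [Finset.mul_sum]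
      apply Finset.sum_congr rfl
      intro j _
      have hΛ0 : Λ ≠ 0 := by positivity
      rw [pow_succ]
      field_simp
    · intro u _
      have h1 : HasDerivAt (fun u => ∑ j ∈ F, c j * Real.exp (u * y j))
          (∑ j ∈ F, c j * (Real.exp (u * y j) * (1 * y j))) u := by
        apply HasDerivAt.fun_sum
        intro j _
        exact (((hasDerivAt_id u).mul_const (y j)).exp).const_mul _
      have h2 := (h1.const_mul T).const_add θ0
      refine HasDerivAt.congr_deriv h2 ?_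
      symm
      rw [hD]
      simp only [pow_zero]
      have hgen : ∀ X : ℝ, 2 * Real.pi * T * (1 / (2 * Real.pi) * X) = T * X := by
        intro X
        field_simp
      rw [hgen]
      congr 1
      apply Finset.sum_congr rfl
      intro j _
      ring
  refine Pool.Agent.Y933.KI.total hch hlam0 hlam1 ?_
  intro u hu
  obtain ⟨i, hi, hi2⟩ := Pool.Agent.Y933.KI.vand (fun j => y j / Λ) (δ := δ / Λ) (by positivity) (j0 := j0)
    (F.erase j0) (Finset.notMem_erase _ _) (by
      intro j hj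
      obtain ⟨h2, h3⟩ := hy j (Finset.mem_of_mem_erase hj)
      rw [abs_of_nonneg (by apply div_nonneg <;> linarith), div_le_one (by linarith)]
      exact h3) (by
      intro j hj
      have h2 := hsep j0 hj0 j (Finset.mem_of_mem_erase hj) (Finset.ne_of_mem_erase hj).symm
      rw [← sub_div, abs_div, abs_of_nonneg (by linarith : 0 ≤ Λ)]
      gcongr) (fun j => (1 / (2 * Real.pi)) * (c j * y j * Real.exp (u * y j)))
  rw [Finset.insert_erase hj0] at hi2
  have hcard : (F.erase j0).card < k := by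
    rw [Finset.card_erase_of_mem hj0]
    have := Finset.card_pos.2 ⟨j0, hj0⟩
    omega
  refine ⟨i, by omega, ?_⟩
  have e1 : D i u = ∑ j ∈ F, 1 / (2 * Real.pi) * (c j * y j * Real.exp (u * y j)) * (y j / Λ) ^ i := by
    rw [hD]
    simp only
    rw [Finset.mul_sum]
    apply Finset.sum_congr rfl
    intro j _
    ring
  rw [e1]
  refine le_trans ?_ hi2
  have hdd : δ / Λ / 2 = δ / (2 * Λ) := by
    rw [div_div]; ring_nf
  rw [hdd]
  have h1 : (δ / (2 * Λ)) ^ k ≤ (δ / (2 * Λ)) ^ (F.erase j0).card :=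
    pow_le_pow_of_le_one hq0.le hq1 hcard.le
  have h2 : c0 * ylo / (2 * Real.pi) ≤ |1 / (2 * Real.pi) * (c j0 * y j0 * Real.exp (u * y j0))| := by
    obtain ⟨h3, h4⟩ := hy j0 hj0
    rw [abs_mul, abs_mul, abs_mul, abs_of_nonneg (by positivity : 0 ≤ 1 / (2 * Real.pi)),
      abs_of_nonneg (by linarith : 0 ≤ y j0), abs_of_nonneg (Real.exp_pos _).le]
    have h5 := (hexp u hu j0 hj0).2
    have h6 : c0 * ylo ≤ |c j0| * y j0 * Real.exp (u * y j0) := by
      calc c0 * ylo ≤ |c j0| * y j0 := by gcongr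
        _ ≤ |c j0| * y j0 * Real.exp (u * y j0) := by
          apply le_mul_of_one_le_right _ h5
          apply mul_nonneg (abs_nonneg _); linarith
    calc c0 * ylo / (2 * Real.pi) = 1 / (2 * Real.pi) * (c0 * ylo) := by ring
      _ ≤ _ := by gcongr
  rw [hlam]
  gcongr

end Pool.Agent.K9h70.RE
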