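import Mathlib
import Pool.Agent.K9h70.RE.Osc

set_option autoImplicit false

namespace Pool.Agent.K9h70.RE

open Finset MeasureTheory Set

/-- the bound of `osc` -/
noncomputable def etaB (k : ℕ) (Λ δ ylo C c0 T : ℝ) : ℝ :=
  30 * 2 ^ k * Λ ^ 2 * (k * C * Λ * Real.exp Λ) ^ 2 /
        (1 ^ (2 * k) * (c0 * ylo / (2 * Real.pi) * (δ / (2 * Λ)) ^ k) ^ 3) * T ^ (-(1 / (4 * (k : ℝ))))

/-- oscillatory integrals with exponential nodes, any index set -/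
theorem osc2 {ι : Type} [DecidableEq ι] {k : ℕ} (hk : 1 ≤ k) (F : Finset ι) (hF : F.card ≤ k)
    (y c : ι → ℝ)
    {Λ δ ylo C c0 T : ℝ} (hΛ : 1 ≤ Λ) (hδ : 0 < δ) (hδ1 : δ ≤ 1) (hylo : 0 < ylo) (hylo1 : ylo ≤ 1)
    (hy : ∀ j ∈ F, ylo ≤ y j ∧ y j ≤ Λ) (hsep : ∀ i ∈ F, ∀ j ∈ F, i ≠ j → δ ≤ |y i - y j|)
    (hC : 1 ≤ C) (hc : ∀ j ∈ F, |c j| ≤ C) {j0 : ι} (hj0 : j0 ∈ F) (hc0 : 0 < c0) (hc01 : c0 ≤ 1)
    (h0 : c0 ≤ |c j0|) (hT : 1 ≤ T) (θ0 : ℝ) :
    |∫ u in (0:ℝ)..1, Real.cos (θ0 + T * ∑ j ∈ F, c j * Real.exp (u * y j))| ≤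
      etaB k Λ δ ylo C c0 T := by
  classical
  obtain ⟨e⟩ : Nonempty (F ≃ Fin F.card) := ⟨F.equivFin⟩
  set g : ℕ → ι := fun n => if h : n < F.card then (e.symm ⟨n, h⟩ : ι) else j0 with hg
  have hgF : ∀ n, g n ∈ F := by
    intro n
    rw [hg]
    simp only
    split_ifs
    · exact (e.symm _).2
    · exact hj0
  have hginj : ∀ n ∈ Finset.range F.card, ∀ m ∈ Finset.range F.card, g n = g m → n = m := by
    intro n hn m hm h
    rw [Finset.mem_range] at hn hm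
    rw [hg] at h
    simp only [dif_pos hn, dif_pos hm] at h
    have h2 := e.symm.injective (Subtype.ext h)
    exact Fin.mk.inj_iff.1 h2
  have himg : (Finset.range F.card).image g = F := by
    ext i
    rw [Finset.mem_image]
    constructor
    · rintro ⟨n, _, rfl⟩
      exact hgF n
    · intro hi
      refine ⟨(e ⟨i, hi⟩ : ℕ), Finset.mem_range.2 (e ⟨i, hi⟩).2, ?_⟩
      rw [hg]
      simp only [dif_pos (e ⟨i, hi⟩).2, Fin.eta, Equiv.symm_apply_apply]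
  have hsum : ∀ u : ℝ, ∑ j ∈ F, c j * Real.exp (u * y j) =
      ∑ n ∈ Finset.range F.card, c (g n) * Real.exp (u * y (g n)) := by
    intro u
    conv_lhs => rw [← himg]
    rw [Finset.sum_image]
    intro n hn m hm h
    exact hginj n hn m hm h
  simp only [hsum]
  obtain ⟨n0, hn0, hgn0⟩ := Finset.mem_image.1 (himg.symm ▸ hj0 : j0 ∈ (Finset.range F.card).image g)
  exact osc hk (Finset.range F.card) (by rw [Finset.card_range]; exact hF) (fun n => y (g n))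
    (fun n => c (g n)) hΛ hδ hδ1 hylo hylo1 (fun n _ => hy _ (hgF n))
    (fun n hn m hm hnm => hsep _ (hgF n) _ (hgF m) (fun h => hnm (hginj n hn m hm h)))
    hC (fun n _ => hc _ (hgF n)) hn0 hc0 hc01 (by simp only [hgn0]; exact h0) hT θ0

end Pool.Agent.K9h70.RE
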