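import Mathlib
import Pool.Agent.K9h70.RE.Osc2

set_option autoImplicit false

namespace Pool.Agent.K9h70.RE

open Finset MeasureTheory Set

theorem eta_le {k : ℕ} {Λ δ ylo C c0 T X c : ℝ} {b : ℕ} (hX : 1 ≤ X) (hc : 1 ≤ c)
    (hΛ : 1 ≤ Λ) (hΛ2 : Λ ≤ c * X) (hE : Real.exp Λ ≤ c * X ^ b) (hC : 1 ≤ C) (hC2 : C ≤ c * X ^ b)
    (hδ : 0 < δ) (hδ2 : 1 / δ ≤ c * X ^ b) (hc0 : 0 < c0) (hc02 : 1 / c0 ≤ c * X ^ b)
    (hy : 0 < ylo) (hy2 : 1 / ylo ≤ c * X ^ b) (hT : 0 ≤ T) :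
    etaB k Λ δ ylo C c0 T ≤ (30 * 2 ^ k * (k : ℝ) ^ 2 * (2 * Real.pi) ^ 3 * c ^ 14 * (2 * c ^ 2) ^ (3 * k)) *
      X ^ (4 + 10 * b + 3 * k * (b + 1)) * T ^ (-(1 / (4 * (k : ℝ)))) := by
  have hπ := Real.pi_pos
  unfold etaB
  apply mul_le_mul_of_nonneg_right _ (Real.rpow_nonneg hT _)
  have e1 : 30 * 2 ^ k * Λ ^ 2 * (k * C * Λ * Real.exp Λ) ^ 2 /
        (1 ^ (2 * k) * (c0 * ylo / (2 * Real.pi) * (δ / (2 * Λ)) ^ k) ^ 3) =
      30 * 2 ^ k * (k : ℝ) ^ 2 * (2 * Real.pi) ^ 3 * (Λ ^ 4 * C ^ 2 * (Real.exp Λ) ^ 2 * (1 / c0) ^ 3 * (1 / ylo) ^ 3 *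
        (2 * Λ * (1 / δ)) ^ (3 * k)) := by
    have h1 : (2 * Λ * (1 / δ)) ^ (3 * k) = 1 / ((δ / (2 * Λ)) ^ k) ^ 3 := by
      rw [← pow_mul, mul_comm k 3, ← one_div_pow]
      congr 1
      field_simp
    rw [h1, one_pow, one_mul]
    field_simp
  rw [e1]
  have h2 : Λ ^ 4 * C ^ 2 * (Real.exp Λ) ^ 2 * (1 / c0) ^ 3 * (1 / ylo) ^ 3 * (2 * Λ * (1 / δ)) ^ (3 * k) ≤
      (c * X) ^ 4 * (c * X ^ b) ^ 2 * (c * X ^ b) ^ 2 * (c * X ^ b) ^ 3 * (c * X ^ b) ^ 3 *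
        (2 * (c * X) * (c * X ^ b)) ^ (3 * k) := by
    have hEp := Real.exp_pos Λ
    gcongr
  calc _ ≤ 30 * 2 ^ k * (k : ℝ) ^ 2 * (2 * Real.pi) ^ 3 *
        ((c * X) ^ 4 * (c * X ^ b) ^ 2 * (c * X ^ b) ^ 2 * (c * X ^ b) ^ 3 * (c * X ^ b) ^ 3 *
        (2 * (c * X) * (c * X ^ b)) ^ (3 * k)) := by gcongr
    _ = _ := by
      have h3 : (2 * (c * X) * (c * X ^ b)) ^ (3 * k) = (2 * c ^ 2) ^ (3 * k) * X ^ (3 * k * (b + 1)) := by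
        rw [show 2 * (c * X) * (c * X ^ b) = (2 * c ^ 2) * X ^ (b + 1) by ring, mul_pow, ← pow_mul]
        congr 2
        ring
      rw [h3]
      have h4 : X ^ (4 + 10 * b + 3 * k * (b + 1)) = X ^ 4 * (X ^ b) ^ 10 * X ^ (3 * k * (b + 1)) := by
        rw [pow_add, pow_add, ← pow_mul, mul_comm b 10]
      rw [h4]
      ring

theorem numeric {ε : ℝ} (hε : 0 < ε) (B k k' : ℕ) (hk : 1 ≤ k) (hk' : 1 ≤ k') (hεk : 2 * (B : ℝ) + 1 ≤ ε * k)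
    (c : ℝ) (hc : 1 ≤ c) (b : ℕ) : ∃ K : ℝ, 0 < K ∧ ∀ X : ℝ, 1 ≤ X →
      ∀ (nI nJ dg : ℕ) (Λ δ ylo C c0 T H : ℝ), 1 ≤ nI → (nI : ℝ) ≤ 2 * X → (nJ : ℝ) ≤ X ^ B →
      dg ≤ (k * (nI + nJ)) ^ (k + 1) → 1 ≤ Λ → Λ ≤ c * X → Real.exp Λ ≤ c * X ^ b → 1 ≤ C → C ≤ c * X ^ b →
      0 < δ → 1 / δ ≤ c * X ^ b → 0 < c0 → 1 / c0 ≤ c * X ^ b → 0 < ylo → 1 / ylo ≤ c * X ^ b →
      X ^ (4 * k' * (4 + 10 * b + 3 * k' * (b + 1) + B * k)) ≤ T → X ^ ε * ((nI : ℝ) + nJ) ≤ H →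
      ((dg : ℝ) + ((nI : ℝ) * nJ) ^ k * etaB k' Λ δ ylo C c0 T) / H ^ k ≤ K / X ^ B := by
  set P := 4 + 10 * b + 3 * k' * (b + 1) with hP
  set K1 : ℝ := 30 * 2 ^ k' * (k' : ℝ) ^ 2 * (2 * Real.pi) ^ 3 * c ^ 14 * (2 * c ^ 2) ^ (3 * k') with hK1
  have hπ := Real.pi_pos
  have hK10 : 0 ≤ K1 := by positivity
  refine ⟨3 * (k : ℝ) ^ (k + 1) + K1, by positivity, ?_⟩
  intro X hX nI nJ dg Λ δ ylo C c0 T H hnI hnI2 hnJ hdg hΛ hΛ2 hE hC hC2 hδ hδ2 hc0 hc02 hy hy2 hT hH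
  have hX0 : 0 < X := by linarith
  have hT0 : 0 < T := lt_of_lt_of_le (by positivity) hT
  have h1 := eta_le (k := k') hX hc hΛ hΛ2 hE hC hC2 hδ hδ2 hc0 hc02 hy hy2 hT0.le
  have h2 : T ^ (-(1 / (4 * (k' : ℝ)))) ≤ 1 / X ^ (P + B * k) := by
    have hk0 : (0 : ℝ) < k' := by exact_mod_cast hk'
    have h3 : T ^ (-(1 / (4 * (k' : ℝ)))) ≤ (X ^ (4 * k' * (P + B * k))) ^ (-(1 / (4 * (k' : ℝ)))) := by
      apply Real.rpow_le_rpow_of_nonpos (by positivity) hT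
      have : 0 < 1 / (4 * (k' : ℝ)) := by positivity
      linarith
    refine h3.trans (le_of_eq ?_)
    have h4 : (1 : ℝ) / X ^ (P + B * k) = X ^ (-((P + B * k : ℕ) : ℝ)) := by
      rw [Real.rpow_neg hX0.le, Real.rpow_natCast, one_div]
    rw [h4, ← Real.rpow_natCast X (4 * k' * (P + B * k)), ← Real.rpow_mul hX0.le]
    congr 1
    push_cast
    field_simp
  have hη : etaB k' Λ δ ylo C c0 T ≤ K1 / X ^ (B * k) := by
    calc etaB k' Λ δ ylo C c0 T ≤ K1 * X ^ P * T ^ (-(1 / (4 * (k' : ℝ)))) := h1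
      _ ≤ K1 * X ^ P * (1 / X ^ (P + B * k)) := by gcongr
      _ = K1 / X ^ (B * k) := by
        have h7 : X ^ P ≠ 0 := by positivity
        have h8 : X ^ (B * k) ≠ 0 := by positivity
        rw [pow_add X P (B * k)]
        generalize X ^ P = p at *
        generalize X ^ (B * k) = q at *
        field_simp
  have hnI' : (1 : ℝ) ≤ nI := by exact_mod_cast hnI
  have hnJ0 : (0 : ℝ) ≤ nJ := Nat.cast_nonneg _
  have hXε : 0 < X ^ ε := Real.rpow_pos_of_pos hX0 _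
  have hXε1 : 1 ≤ X ^ ε := Real.one_le_rpow hX hε.le
  set s : ℝ := (nI : ℝ) + nJ with hs
  have hs1 : 1 ≤ s := by linarith
  have hH0 : 0 < H := lt_of_lt_of_le (by positivity) hH
  have hHk : (X ^ ε) ^ k * s ^ k ≤ H ^ k := by
    rw [← mul_pow]
    exact pow_le_pow_left₀ (by positivity) hH _
  have hHk0 : 0 < (X ^ ε) ^ k * s ^ k := by positivity
  have hεB : X ^ (2 * B + 1) ≤ (X ^ ε) ^ k := by
    rw [← Real.rpow_natCast X, ← Real.rpow_natCast (X ^ ε), ← Real.rpow_mul hX0.le]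
    apply Real.rpow_le_rpow_of_exponent_le hX
    push_cast
    linarith
  -- the two terms
  have t1 : (dg : ℝ) ≤ (k : ℝ) ^ (k + 1) * s ^ (k + 1) := by
    have : (dg : ℝ) ≤ ((k * (nI + nJ)) ^ (k + 1) : ℕ) := by exact_mod_cast hdg
    refine this.trans (le_of_eq ?_)
    push_cast
    rw [mul_pow]
  have hs3 : s ≤ 3 * X ^ (B + 1) := by
    have h4 : X ≤ X ^ (B + 1) := by
      nth_rewrite 1 [← pow_one X]
      exact pow_le_pow_right₀ hX (by omega)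
    have h5 : X ^ B ≤ X ^ (B + 1) := pow_le_pow_right₀ hX (by omega)
    rw [hs]
    linarith
  have t1' : (dg : ℝ) / H ^ k ≤ 3 * (k : ℝ) ^ (k + 1) / X ^ B := by
    calc (dg : ℝ) / H ^ k ≤ ((k : ℝ) ^ (k + 1) * s ^ (k + 1)) / ((X ^ ε) ^ k * s ^ k) := by gcongr
      _ = (k : ℝ) ^ (k + 1) * s / (X ^ ε) ^ k := by
        rw [pow_succ s k]
        field_simp
      _ ≤ (k : ℝ) ^ (k + 1) * (3 * X ^ (B + 1)) / X ^ (2 * B + 1) := by gcongr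
      _ = 3 * (k : ℝ) ^ (k + 1) / X ^ B := by
        rw [show 2 * B + 1 = (B + 1) + B by ring, pow_add X (B + 1) B]
        field_simp
  have t2 : ((nI : ℝ) * nJ) ^ k * etaB k' Λ δ ylo C c0 T / H ^ k ≤ K1 / X ^ B := by
    have h6 : ((nI : ℝ) * nJ) ^ k ≤ s ^ k * (X ^ B) ^ k := by
      rw [← mul_pow]
      apply pow_le_pow_left₀ (by positivity)
      apply mul_le_mul _ hnJ hnJ0 (by positivity)
      linarith
    have hη0 : 0 ≤ etaB k' Λ δ ylo C c0 T := by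
      unfold etaB
      positivity
    calc ((nI : ℝ) * nJ) ^ k * etaB k' Λ δ ylo C c0 T / H ^ k ≤
        (s ^ k * (X ^ B) ^ k) * (K1 / X ^ (B * k)) / ((X ^ ε) ^ k * s ^ k) := by gcongr
      _ = K1 / (X ^ ε) ^ k := by
        rw [← pow_mul]
        have h7 : X ^ (B * k) ≠ 0 := by positivity
        have h8 : s ^ k ≠ 0 := by positivity
        have h9 : (X ^ ε) ^ k ≠ 0 := by positivity
        generalize X ^ (B * k) = q at *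
        generalize s ^ k = p at *
        generalize (X ^ ε) ^ k = r at *
        field_simp
      _ ≤ K1 / X ^ B := by
        apply div_le_div_of_nonneg_left hK10 (by positivity)
        exact (pow_le_pow_right₀ hX (by omega)).trans hεB
  rw [add_div, add_div]
  exact add_le_add t1' t2

end Pool.Agent.K9h70.RE
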