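import Mathlib
import Pool.Agent.K9h70.RE.Stmts
import Pool.Agent.K9h70.RE.Abs
import Pool.Agent.K9h70.RE.Num
import Pool.Agent.K9h70.RE.L_QT
import Pool.Agent.K9h70.RE.L_TR
import Pool.Agent.K9h70.RE.L_WC
import Pool.Agent.K9h70.RE.L_LG

set_option autoImplicit false

namespace Pool.Agent.K9h70.RE

open Finset MeasureTheory Set

/-- the phases `- (τ_r + w_r x_r^u) log n` -/
noncomputable def phB (I : Finset ℕ) (R : ℕ) (τ w x : ℕ → ℝ) (r : Fin R) (n : I) (u : ℝ) : ℝ :=
  -((τ r + w r * Real.exp (u * Real.log (x r))) * Real.log (n : ℕ))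

theorem phB_cont (I : Finset ℕ) (R : ℕ) (τ w x : ℕ → ℝ) (r : Fin R) (n : I) :
    Continuous (phB I R τ w x r n) := by
  unfold phB
  fun_prop

/-- degenerate closed walks -/
noncomputable def degB (k : ℕ) (I : Finset ℕ) (R : ℕ) : Finset ((Fin k → I) × (Fin k → Fin R)) := by
  classical
  exact univ.filter fun q => ∀ s : Fin R, ∑ j ∈ univ.filter (fun j => q.2 j = s),
    (Real.log ((q.1 (finRotate k j) : ℕ) : ℝ) - Real.log ((q.1 j : ℕ) : ℝ)) = 0

theorem degB_card (k N : ℕ) (hk : 1 ≤ k) (I : Finset ℕ) (hI : I ⊆ Finset.Icc 1 N) (R : ℕ) :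
    (degB k I R).card ≤ (k * (I.card + R)) ^ (k + 1) := by
  classical
  have h := t_WC k hk I (Fin R) (fun n => Real.log ((n : ℕ) : ℝ)) (by
    intro a b hab
    have ha : (0 : ℝ) < ((a : ℕ) : ℝ) := by
      have := (Finset.mem_Icc.1 (hI a.2)).1
      exact_mod_cast this
    have hb : (0 : ℝ) < ((b : ℕ) : ℝ) := by
      have := (Finset.mem_Icc.1 (hI b.2)).1
      exact_mod_cast this
    have h1 := Real.log_injOn_pos (Set.mem_Ioi.2 ha) (Set.mem_Ioi.2 hb) hab
    exact Subtype.ext (by exact_mod_cast h1))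
  rw [Fintype.card_coe, Fintype.card_fin] at h
  unfold degB
  convert h using 2
  ext q
  simp only [Finset.mem_filter, Finset.mem_univ, true_and]

theorem phB_walk (I : Finset ℕ) (R : ℕ) (τ w x : ℕ → ℝ) {k : ℕ} (q : (Fin k → I) × (Fin k → Fin R))
    {T : ℝ} (hT : T ≠ 0) (u : ℝ) :
    ph (phB I R τ w x) q u = (∑ j, -(τ (q.2 j) * (Real.log ((q.1 (finRotate k j) : ℕ) : ℝ) -
        Real.log ((q.1 j : ℕ) : ℝ)))) + T * ∑ s ∈ Finset.univ.image q.2,
      (-(w s / T) * ∑ j ∈ univ.filter (fun j => q.2 j = s),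
        (Real.log ((q.1 (finRotate k j) : ℕ) : ℝ) - Real.log ((q.1 j : ℕ) : ℝ))) *
          Real.exp (u * Real.log (x s)) := by
  have h0 : ph (phB I R τ w x) q u = (∑ j, -(τ (q.2 j) * (Real.log ((q.1 (finRotate k j) : ℕ) : ℝ) -
        Real.log ((q.1 j : ℕ) : ℝ)))) + ∑ j, (-(w (q.2 j) * Real.exp (u * Real.log (x (q.2 j)))) *
          (Real.log ((q.1 (finRotate k j) : ℕ) : ℝ) - Real.log ((q.1 j : ℕ) : ℝ))) := by
    rw [← Finset.sum_add_distrib]
    unfold ph phB
    apply Finset.sum_congr rfl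
    intro j _
    ring
  rw [h0]
  congr 1
  rw [← Finset.sum_fiberwise_of_maps_to (s := univ) (t := Finset.univ.image q.2) (g := q.2)
    (fun j _ => Finset.mem_image_of_mem _ (Finset.mem_univ _))]
  rw [Finset.mul_sum]
  apply Finset.sum_congr rfl
  intro s _
  have h1 : ∑ j ∈ univ.filter (fun j => q.2 j = s), (-(w (q.2 j) * Real.exp (u * Real.log (x (q.2 j)))) *
          (Real.log ((q.1 (finRotate k j) : ℕ) : ℝ) - Real.log ((q.1 j : ℕ) : ℝ))) =
        ∑ j ∈ univ.filter (fun j => q.2 j = s),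
        (-(w s * Real.exp (u * Real.log (x s))) * (Real.log ((q.1 (finRotate k j) : ℕ) : ℝ) -
          Real.log ((q.1 j : ℕ) : ℝ))) := by
    apply Finset.sum_congr rfl
    intro j hj
    rw [(Finset.mem_filter.1 hj).2]
  rw [h1, ← Finset.mul_sum]
  field_simp

theorem nondegB {N B k R : ℕ} (hN : 1 ≤ N) (hk : 1 ≤ k) (I : Finset ℕ) (hI : I ⊆ Finset.Icc 1 N)
    (τ w x : ℕ → ℝ) {T : ℝ} (hT : 1 ≤ T)
    (hS : ∀ s < R, 1 + 1 / (N : ℝ) ^ B ≤ x s ∧ x s ≤ (N : ℝ) ^ B)
    (hsep : ∀ s < R, ∀ t < R, s ≠ t → 1 / (N : ℝ) ^ B ≤ |x s - x t|)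
    (hw : ∀ s < R, T ≤ |w s| ∧ |w s| ≤ (N : ℝ) ^ B * T)
    (q : (Fin k → I) × (Fin k → Fin R)) (hq : q ∉ degB k I R) :
    |∫ u in (0:ℝ)..1, Real.cos (ph (phB I R τ w x) q u)| ≤
      etaB k (B * Real.log N + 1) (1 / ((N : ℝ) ^ B) ^ 2) (1 / (2 * (N : ℝ) ^ B))
        ((N : ℝ) ^ B * (k * N) + 1) (1 / (N : ℝ) ^ k) T := by
  classical
  have hN1 : (1 : ℝ) ≤ N := by exact_mod_cast hN
  have hT0 : 0 < T := by linarith
  have hNB : (1 : ℝ) ≤ (N : ℝ) ^ B := one_le_pow₀ hN1
  have hNk : (1 : ℝ) ≤ (N : ℝ) ^ k := one_le_pow₀ hN1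
  have hlogN : 0 ≤ Real.log N := Real.log_nonneg hN1
  simp only [phB_walk I R τ w x q hT0.ne']
  -- a node with nonzero coefficient
  have hex : ∃ s0 : Fin R, ∑ j ∈ univ.filter (fun j => q.2 j = s0),
      (Real.log ((q.1 (finRotate k j) : ℕ) : ℝ) - Real.log ((q.1 j : ℕ) : ℝ)) ≠ 0 := by
    by_contra hcon
    push Not at hcon
    apply hq
    unfold degB
    simp only [Finset.mem_filter, Finset.mem_univ, true_and]
    intro s
    convert hcon s using 2
  obtain ⟨s0, hs0⟩ := hex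
  have hmem : s0 ∈ Finset.univ.image q.2 := by
    by_contra hcon
    apply hs0
    apply Finset.sum_eq_zero
    intro j hj
    exact absurd (Finset.mem_image.2 ⟨j, Finset.mem_univ _, (Finset.mem_filter.1 hj).2⟩) hcon
  have hval : ∀ n : I, 1 ≤ (n : ℕ) ∧ (n : ℕ) ≤ N := fun n => Finset.mem_Icc.1 (hI n.2)
  have hlg := t_LG k N hN (univ.filter (fun j => q.2 j = s0)) (fun j => (q.1 (finRotate k j) : ℕ))
    (fun j => (q.1 j : ℕ)) (fun j => hval _) (fun j => hval _) hs0
  have hlogb : ∀ n : I, 0 ≤ Real.log ((n : ℕ) : ℝ) ∧ Real.log ((n : ℕ) : ℝ) ≤ N := by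
    intro n
    obtain ⟨h1, h2⟩ := hval n
    have h1' : (1 : ℝ) ≤ ((n : ℕ) : ℝ) := by exact_mod_cast h1
    have h2' : ((n : ℕ) : ℝ) ≤ N := by exact_mod_cast h2
    refine ⟨Real.log_nonneg h1', ?_⟩
    have := Real.log_le_sub_one_of_pos (by linarith : (0:ℝ) < ((n : ℕ) : ℝ))
    linarith
  apply osc2 hk (Finset.univ.image q.2) (by
      refine Finset.card_image_le.trans ?_
      rw [Finset.card_univ, Fintype.card_fin]) (fun s : Fin R => Real.log (x s)) _ (j0 := s0)
  · have : 0 ≤ (B : ℝ) * Real.log N := by positivity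
    linarith
  · positivity
  · rw [div_le_one (by positivity)]
    exact one_le_pow₀ hNB
  · positivity
  · rw [div_le_one (by positivity)]
    linarith
  · intro s _
    obtain ⟨h1, h2⟩ := hS s s.2
    have hs1 : (0 : ℝ) < x s := by
      have : 0 < 1 / (N : ℝ) ^ B := by positivity
      linarith
    constructor
    · -- log s ≥ 1 - 1/s
      have h3 : 1 - (x s)⁻¹ ≤ Real.log (x s) := Real.one_sub_inv_le_log_of_pos hs1
      refine le_trans ?_ h3
      have h4 : (x s)⁻¹ ≤ (1 + 1 / (N : ℝ) ^ B)⁻¹ := by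
        apply inv_anti₀ (by positivity) h1
      have h5 : (1 + 1 / (N : ℝ) ^ B)⁻¹ ≤ 1 - 1 / (2 * (N : ℝ) ^ B) := by
        rw [inv_le_iff_one_le_mul₀ (by positivity)]
        set z := (N : ℝ) ^ B with hz
        have hz0 : 0 < z := by linarith
        have h6 : (1 - 1 / (2 * z)) * (1 + 1 / z) = 1 + (z - 1) / (2 * z ^ 2) := by
          field_simp
          ring
        rw [h6]
        have : 0 ≤ (z - 1) / (2 * z ^ 2) := by
          apply div_nonneg <;> nlinarith
        linarith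
      linarith
    · have h3 : Real.log (x s) ≤ Real.log ((N : ℝ) ^ B) := Real.log_le_log hs1 h2
      rw [Real.log_pow] at h3
      linarith
  · intro s _ t _ hst
    have hst' : (s : ℕ) ≠ t := fun h => hst (Fin.ext h)
    have h1 := hsep s s.2 t t.2 hst'
    have key : ∀ a b : ℝ, 0 < a → 0 < b → a ≤ (N : ℝ) ^ B → b ≤ a → 1 / (N : ℝ) ^ B ≤ a - b →
        1 / ((N : ℝ) ^ B) ^ 2 ≤ Real.log a - Real.log b := by
      intro a b ha hb haN _ hab2
      rw [← Real.log_div ha.ne' hb.ne']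
      have h3 := Real.one_sub_inv_le_log_of_pos (div_pos ha hb)
      refine le_trans ?_ h3
      rw [inv_div, show 1 - b / a = (a - b) / a by field_simp]
      calc 1 / ((N : ℝ) ^ B) ^ 2 = (1 / (N : ℝ) ^ B) / (N : ℝ) ^ B := by
            rw [pow_two]; field_simp
        _ ≤ (a - b) / a := by
            apply div_le_div₀ (by linarith [show (0:ℝ) < 1 / (N : ℝ) ^ B by positivity]) hab2 ha haN
    have hpos : ∀ s : Fin R, (0 : ℝ) < x s := by
      intro s
      have h2 := (hS s s.2).1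
      have : 0 < 1 / (N : ℝ) ^ B := by positivity
      linarith
    rcases le_total (x s) (x t) with h | h
    · rw [abs_sub_comm] at h1
      rw [abs_of_nonneg (by linarith)] at h1
      have := key (x t) (x s) (hpos t) (hpos s) (hS t t.2).2 h h1
      rw [abs_sub_comm]
      exact this.trans (le_abs_self _)
    · rw [abs_of_nonneg (by linarith)] at h1
      have := key (x s) (x t) (hpos s) (hpos t) (hS s s.2).2 h h1
      exact this.trans (le_abs_self _)
  · have : 0 ≤ (N : ℝ) ^ B * (k * N) := by positivity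
    linarith
  · intro s _
    rw [abs_mul, abs_neg, abs_div, abs_of_pos hT0]
    have h1 : |w s| / T ≤ (N : ℝ) ^ B := by
      rw [div_le_iff₀ hT0]
      exact (hw s s.2).2
    have h2 : |∑ j ∈ univ.filter (fun j => q.2 j = s),
        (Real.log ((q.1 (finRotate k j) : ℕ) : ℝ) - Real.log ((q.1 j : ℕ) : ℝ))| ≤ k * N := by
      refine (Finset.abs_sum_le_sum_abs _ _).trans ?_
      calc _ ≤ ∑ j ∈ univ.filter (fun j => q.2 j = s), (N : ℝ) := by
            apply Finset.sum_le_sum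
            intro j _
            have h3 := hlogb (q.1 (finRotate k j))
            have h4 := hlogb (q.1 j)
            rw [abs_le]
            constructor <;> linarith
        _ = ((univ.filter (fun j => q.2 j = s)).card : ℝ) * N := by simp
        _ ≤ k * N := by
            have h5 : (univ.filter (fun j => q.2 j = s)).card ≤ k := by
              refine (Finset.card_le_univ _).trans ?_
              rw [Fintype.card_fin]
            gcongr
    have h3 := mul_le_mul h1 h2 (abs_nonneg _) (by linarith)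
    linarith
  · exact hmem
  · positivity
  · rw [div_le_one (by positivity)]
    exact hNk
  · rw [abs_mul, abs_neg, abs_div, abs_of_pos hT0]
    have h1 : 1 ≤ |w s0| / T := by
      rw [le_div_iff₀ hT0, one_mul]
      exact (hw s0 s0.2).1
    calc 1 / (N : ℝ) ^ k = 1 * (1 / (N : ℝ) ^ k) := by ring
      _ ≤ _ := by
        apply mul_le_mul h1 hlg (by positivity) (by linarith)
  · exact hT

end Pool.Agent.K9h70.RE
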