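import Mathlib
import Pool.Agent.K9h70.RE.FinB

set_option autoImplicit false

namespace Pool.Agent.K9h70.RE

open Finset MeasureTheory Set

/-- `∑_{n ∈ I} a_n n^{-it}` -/
noncomputable def DI (I : Finset ℕ) (a : ℕ → ℂ) (t : ℝ) : ℂ :=
  ∑ n ∈ I, a n * (n : ℂ) ^ (-((t : ℂ) * Complex.I))

theorem termB_eq {n : ℕ} (hn : 1 ≤ n) (t : ℝ) :
    (n : ℂ) ^ (-((t : ℂ) * Complex.I)) = Complex.exp (((-(t * Real.log n) : ℝ) : ℂ) * Complex.I) := by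
  have hn0 : (n : ℂ) ≠ 0 := by exact_mod_cast (by omega : n ≠ 0)
  rw [Complex.cpow_def_of_ne_zero hn0, ← Complex.natCast_log]
  congr 1
  push_cast
  ring

theorem exceptC (B : ℕ) : ∃ C1 : ℝ, 1 ≤ C1 ∧ ∀ ε : ℝ, 0 < ε → ε ≤ 1 → ∃ (A : ℕ) (K : ℝ),
    (A : ℝ) ≤ C1 / ε ^ 3 ∧ 0 < K ∧ ∀ N R : ℕ, 1 ≤ N → ∀ I : Finset ℕ, I ⊆ Finset.Icc 1 N →
    (R : ℝ) ≤ (N : ℝ) ^ B → ∀ (τ w x : ℕ → ℝ) (L : ℝ), (N : ℝ) ^ A ≤ L →
    (∀ s < R, L ≤ |w s| ∧ |w s| ≤ (N : ℝ) ^ B * L) →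
    (∀ s < R, 1 + 1 / (N : ℝ) ^ B ≤ x s ∧ x s ≤ (N : ℝ) ^ B) →
    (∀ s < R, ∀ t < R, s ≠ t → 1 / (N : ℝ) ^ B ≤ |x s - x t|) →
    volume {u : ℝ | u ∈ Set.Icc (0 : ℝ) 1 ∧ ∃ a : ℕ → ℂ,
      (N : ℝ) ^ ε * ((I.card : ℝ) + R) * ∑ n ∈ I, ‖a n‖ ^ 2 <
        ∑ s ∈ Finset.range R, ‖DI I a (τ s + w s * x s ^ u)‖ ^ 2} ≤ ENNReal.ofReal (K / (N : ℝ) ^ B) := by
  classical
  have hB0 : (0 : ℝ) ≤ B := Nat.cast_nonneg _
  refine ⟨4 * (33 + 27 * B) * (8 * (2 * B + 1) ^ 3), ?_, ?_⟩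
  · have h1 : (1 : ℝ) ≤ (2 * (B : ℝ) + 1) ^ 3 := one_le_pow₀ (by linarith)
    nlinarith
  intro ε hε hε1
  -- the number k
  have hx1 : 1 ≤ (2 * (B : ℝ) + 1) / ε := by
    rw [le_div_iff₀ hε]; linarith
  obtain ⟨m, hm1, hm2⟩ := exists_nat_pow_near hx1 (one_lt_two (α := ℝ))
  obtain ⟨k, hk⟩ : ∃ k : ℕ, k = 2 ^ (m + 1) := ⟨_, rfl⟩
  have hk1 : 1 ≤ k := by rw [hk]; exact Nat.one_le_two_pow
  have hkr2 : (k : ℝ) = 2 ^ (m + 1) := by rw [hk]; push_cast; rfl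
  have hεk : 2 * (B : ℝ) + 1 ≤ ε * k := by
    rw [hkr2]
    rw [div_lt_iff₀ hε] at hm2
    linarith
  have hkup : (k : ℝ) ≤ 2 * ((2 * (B : ℝ) + 1) / ε) := by
    rw [hkr2, pow_succ]
    linarith
  have hkr : (1 : ℝ) ≤ k := by exact_mod_cast hk1
  obtain ⟨K, hK, hnum⟩ := numeric hε B k k hk1 hk1 hεk ((k : ℝ) + B + 3) (by
    linarith) (2 * B + 1 + k)
  set A : ℕ := 4 * k * (4 + 10 * (2 * B + 1 + k) + 3 * k * (2 * B + 1 + k + 1) + B * k) with hA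
  refine ⟨A, K, ?_, hK, ?_⟩
  · have h1 : (A : ℝ) ≤ 4 * (33 + 27 * B) * (k : ℝ) ^ 3 := by
      rw [hA]
      push_cast
      have e1 : 4 * (k : ℝ) * (4 + 10 * (2 * B + 1 + k) + 3 * k * (2 * B + 1 + k + 1) + B * k) =
        4 * k * ((14 + 20 * B) + (16 + 7 * B) * k + 3 * k ^ 2) := by ring
      rw [e1]
      have h2 : (k : ℝ) ≤ k ^ 2 := by nlinarith
      have h3 : (1 : ℝ) ≤ k ^ 2 := by nlinarith
      have h4 : (14 + 20 * (B : ℝ)) + (16 + 7 * B) * k + 3 * k ^ 2 ≤ (33 + 27 * B) * k ^ 2 := by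
        have h5 : (14 + 20 * (B : ℝ)) * 1 ≤ (14 + 20 * B) * k ^ 2 := by gcongr
        have h6 : (16 + 7 * (B : ℝ)) * k ≤ (16 + 7 * B) * k ^ 2 := by gcongr
        nlinarith
      calc 4 * (k : ℝ) * ((14 + 20 * B) + (16 + 7 * B) * k + 3 * k ^ 2) ≤ 4 * k * ((33 + 27 * B) * k ^ 2) := by
            gcongr
        _ = _ := by ring
    refine h1.trans ?_
    calc 4 * (33 + 27 * (B : ℝ)) * (k : ℝ) ^ 3 ≤ 4 * (33 + 27 * B) * (2 * ((2 * (B : ℝ) + 1) / ε)) ^ 3 := by gcongr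
      _ = _ := by
        rw [mul_pow, div_pow]
        ring
  intro N R hN I hI hcard τ w x L hL hw hS hsep
  have hN1 : (1 : ℝ) ≤ N := by exact_mod_cast hN
  have hN0 : (0 : ℝ) < N := by linarith
  have hNB : (1 : ℝ) ≤ (N : ℝ) ^ B := one_le_pow₀ hN1
  have hL1 : 1 ≤ L := (one_le_pow₀ hN1).trans hL
  have hlogN0 : 0 ≤ Real.log N := Real.log_nonneg hN1
  have hlogN : Real.log N ≤ N := by
    have := Real.log_le_sub_one_of_pos hN0
    linarith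
  rcases I.eq_empty_or_nonempty with hIe | hIne
  · subst hIe
    have h0 : {u : ℝ | u ∈ Set.Icc (0 : ℝ) 1 ∧ ∃ a : ℕ → ℂ,
      (N : ℝ) ^ ε * (((∅ : Finset ℕ).card : ℝ) + R) * ∑ n ∈ (∅ : Finset ℕ), ‖a n‖ ^ 2 <
        ∑ s ∈ Finset.range R, ‖DI ∅ a (τ s + w s * x s ^ u)‖ ^ 2} = ∅ := by
      apply Set.eq_empty_of_forall_notMem
      rintro u ⟨_, a, ha⟩
      unfold DI at ha
      simp at ha
    rw [h0, measure_empty]
    exact bot_le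
  have hIcard : I.card ≤ N := by
    have := Finset.card_le_card hI
    rwa [Nat.card_Icc, Nat.add_sub_cancel] at this
  have hIcard' : (I.card : ℝ) ≤ N := by exact_mod_cast hIcard
  have hI1 : 1 ≤ I.card := Finset.card_pos.2 hIne
  set H : ℝ := (N : ℝ) ^ ε * ((I.card : ℝ) + R) with hH
  have hNε : 0 < (N : ℝ) ^ ε := Real.rpow_pos_of_pos hN0 _
  have hI1' : (1 : ℝ) ≤ I.card := by exact_mod_cast hI1
  have hH0 : 0 < H := by positivity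
  have hη0 : 0 ≤ etaB k (B * Real.log N + 1) (1 / ((N : ℝ) ^ B) ^ 2) (1 / (2 * (N : ℝ) ^ B))
        ((N : ℝ) ^ B * (k * N) + 1) (1 / (N : ℝ) ^ k) L := by
    unfold etaB
    positivity
  have hmain := abs_main t_QT t_TR (phB I R τ w x) (phB_cont I R τ w x) m hk (degB k I R) hη0 hH0
    (fun q hq => nondegB hN hk1 I hI τ w x hL1 hS hsep hw q hq)
  have hpow : ∀ i j : ℕ, i ≤ j → (N : ℝ) ^ i ≤ (N : ℝ) ^ j := fun i j h => pow_le_pow_right₀ hN1 h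
  have hexp3 : Real.exp 1 ≤ 3 := by linarith [Real.exp_one_lt_d9]
  have hfin := hnum N hN1 I.card R (degB k I R).card (B * Real.log N + 1) (1 / ((N : ℝ) ^ B) ^ 2)
    (1 / (2 * (N : ℝ) ^ B)) ((N : ℝ) ^ B * (k * N) + 1) (1 / (N : ℝ) ^ k) L H hI1 (by linarith) hcard
    (degB_card k N hk1 I hI R)
    (by have : 0 ≤ (B : ℝ) * Real.log N := by positivity
        linarith)
    (by
      calc (B : ℝ) * Real.log N + 1 ≤ B * N + N := by gcongr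
        _ = ((B : ℝ) + 1) * N := by ring
        _ ≤ ((k : ℝ) + B + 3) * N := mul_le_mul_of_nonneg_right (by linarith) (by positivity))
    (by
      have e1 : Real.exp (B * Real.log N + 1) = (N : ℝ) ^ B * Real.exp 1 := by
        rw [Real.exp_add, mul_comm (B : ℝ), ← Real.rpow_def_of_pos hN0, Real.rpow_natCast]
      rw [e1]
      calc (N : ℝ) ^ B * Real.exp 1 ≤ (N : ℝ) ^ (2 * B + 1 + k) * ((k : ℝ) + B + 3) := by
            apply mul_le_mul (hpow _ _ (by omega)) (by linarith) (Real.exp_pos _).le (by positivity)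
        _ = _ := by ring)
    (by
      have : 0 ≤ (N : ℝ) ^ B * (k * N) := by positivity
      linarith)
    (by
      calc (N : ℝ) ^ B * (k * N) + 1 = k * (N : ℝ) ^ (B + 1) + 1 := by ring
        _ ≤ k * (N : ℝ) ^ (2 * B + 1 + k) + 1 * (N : ℝ) ^ (2 * B + 1 + k) := by
            have h1 := hpow (B + 1) (2 * B + 1 + k) (by omega)
            have h2 : (1 : ℝ) ≤ (N : ℝ) ^ (2 * B + 1 + k) := one_le_pow₀ hN1
            have h3 : (k : ℝ) * (N : ℝ) ^ (B + 1) ≤ k * (N : ℝ) ^ (2 * B + 1 + k) := by gcongr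
            linarith
        _ = ((k : ℝ) + 1) * (N : ℝ) ^ (2 * B + 1 + k) := by ring
        _ ≤ _ := mul_le_mul_of_nonneg_right (by linarith) (by positivity))
    (by positivity)
    (by
      rw [one_div_one_div, ← pow_mul]
      have h1 := hpow (B * 2) (2 * B + 1 + k) (by omega)
      have h2 : (0 : ℝ) ≤ (N : ℝ) ^ (2 * B + 1 + k) := by positivity
      nlinarith)
    (by positivity)
    (by
      rw [one_div_one_div]
      have h1 := hpow k (2 * B + 1 + k) (by omega)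
      have h2 : (0 : ℝ) ≤ (N : ℝ) ^ (2 * B + 1 + k) := by positivity
      nlinarith)
    (by positivity)
    (by
      rw [one_div_one_div]
      have h1 := hpow B (2 * B + 1 + k) (by omega)
      have h2 : (2 : ℝ) ≤ (k : ℝ) + B + 3 := by linarith
      apply mul_le_mul h2 h1 (by positivity) (by linarith))
    hL (le_refl _)
  refine le_trans (measure_mono ?_) (hmain.trans (ENNReal.ofReal_le_ofReal ?_))
  · rintro u ⟨hu, a, ha⟩
    refine ⟨hu, fun i => a i, ?_⟩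
    have e1 : ∑ i : I, ‖a i‖ ^ 2 = ∑ n ∈ I, ‖a n‖ ^ 2 :=
      Finset.sum_coe_sort I (fun n => ‖a n‖ ^ 2)
    have e2 : ∑ j : Fin R, ‖∑ i : I, a i * Z (phB I R τ w x) u j i‖ ^ 2 =
        ∑ s ∈ Finset.range R, ‖DI I a (τ s + w s * x s ^ u)‖ ^ 2 := by
      rw [← Fin.sum_univ_eq_sum_range (fun s => ‖DI I a (τ s + w s * x s ^ u)‖ ^ 2)]
      apply Finset.sum_congr rfl
      intro s _
      congr 2
      unfold DI
      rw [← Finset.sum_coe_sort I]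
      apply Finset.sum_congr rfl
      intro n _
      rw [termB_eq (Finset.mem_Icc.1 (hI n.2)).1]
      unfold Z phB
      have hs0 : (0 : ℝ) < x s := by
        have h2 := (hS s s.2).1
        have : 0 < 1 / (N : ℝ) ^ B := by positivity
        linarith
      rw [Real.rpow_def_of_pos hs0, mul_comm (Real.log (x s)) u]
    rw [e1, e2]
    exact ha
  · rw [Fintype.card_coe, Fintype.card_fin]
    exact hfin

theorem exceptB (B : ℕ) : ∃ C : ℝ, 1 ≤ C ∧ ∀ ε : ℝ, 0 < ε → ε ≤ 1 → ∃ K : ℝ, 0 < K ∧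
    ∀ (N R : ℕ) (T : ℝ), 1 ≤ N → (N : ℝ) ^ (C * ε ^ (-(3 / 4) : ℝ)) ≤ T →
    ∀ I : Finset ℕ, I ⊆ Finset.Icc 1 N → (R : ℝ) ≤ (N : ℝ) ^ B → ∀ (τ w x : ℕ → ℝ),
    (∀ s < R, T / (N : ℝ) ^ B ≤ |w s| ∧ |w s| ≤ T) →
    (∀ s < R, 1 + 1 / (N : ℝ) ^ B ≤ x s ∧ x s ≤ (N : ℝ) ^ B) →
    (∀ s < R, ∀ t < R, s ≠ t → 1 / (N : ℝ) ^ B ≤ |x s - x t|) →
    volume {u : ℝ | u ∈ Set.Icc (0 : ℝ) 1 ∧ ∃ a : ℕ → ℂ,
      T ^ ε * ((I.card : ℝ) + R) * ∑ n ∈ I, ‖a n‖ ^ 2 <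
        ∑ s ∈ Finset.range R, ‖DI I a (τ s + w s * x s ^ u)‖ ^ 2} ≤ ENNReal.ofReal (K / (N : ℝ) ^ B) := by
  obtain ⟨C1, hC1, h⟩ := exceptC B
  have hB0 : (0 : ℝ) ≤ B := Nat.cast_nonneg _
  refine ⟨C1 + B, by linarith, ?_⟩
  intro ε hε hε1
  set C2 : ℝ := C1 + B with hC2
  have hC21 : 1 ≤ C2 := by linarith
  set e : ℝ := min 1 (C2 * ε ^ (1 / 4 : ℝ)) with he
  have hq0 : 0 < ε ^ (1 / 4 : ℝ) := Real.rpow_pos_of_pos hε _
  have he0 : 0 < e := lt_min one_pos (by positivity)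
  have he1 : e ≤ 1 := min_le_left _ _
  obtain ⟨A, K, hA, hK, hmain⟩ := h e he0 he1
  refine ⟨K, hK, ?_⟩
  intro N R T hN hT I hI hR τ w x hw hS hsep
  have hN1 : (1 : ℝ) ≤ N := by exact_mod_cast hN
  have hN0 : (0 : ℝ) < N := by linarith
  have hNB : (1 : ℝ) ≤ (N : ℝ) ^ B := one_le_pow₀ hN1
  have hr1 : 1 ≤ ε ^ (-(3 / 4) : ℝ) := Real.one_le_rpow_of_pos_of_le_one_of_nonpos hε hε1 (by norm_num)
  have hT0 : 0 < T := lt_of_lt_of_le (Real.rpow_pos_of_pos hN0 _) hT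
  -- A + B ≤ C2 ε^(-3/4)
  have hAB : (A : ℝ) + B ≤ C2 * ε ^ (-(3 / 4) : ℝ) := by
    rcases le_total 1 (C2 * ε ^ (1 / 4 : ℝ)) with h1 | h1
    · have : e = 1 := min_eq_left h1
      rw [this] at hA
      norm_num at hA
      calc (A : ℝ) + B ≤ C2 := by linarith
        _ ≤ C2 * ε ^ (-(3 / 4) : ℝ) := by nlinarith
    · have h2 : e = C2 * ε ^ (1 / 4 : ℝ) := min_eq_right h1
      rw [h2] at hA
      have h3 : C1 / (C2 * ε ^ (1 / 4 : ℝ)) ^ 3 ≤ C1 * ε ^ (-(3 / 4) : ℝ) := by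
        rw [mul_pow, ← Real.rpow_natCast (ε ^ (1 / 4 : ℝ)) 3, ← Real.rpow_mul hε.le]
        have h4 : (1 / 4 : ℝ) * ((3 : ℕ) : ℝ) = 3 / 4 := by norm_num
        rw [h4]
        have h5 : 0 < ε ^ (3 / 4 : ℝ) := Real.rpow_pos_of_pos hε _
        have h6 : ε ^ (-(3 / 4) : ℝ) = 1 / ε ^ (3 / 4 : ℝ) := by
          rw [Real.rpow_neg hε.le, one_div]
        rw [h6, ← div_eq_mul_one_div]
        apply div_le_div_of_nonneg_left (by linarith) h5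
        have h7 : 1 ≤ C2 ^ 3 := one_le_pow₀ hC21
        nlinarith
      calc (A : ℝ) + B ≤ C1 * ε ^ (-(3 / 4) : ℝ) + B * ε ^ (-(3 / 4) : ℝ) := by
            have : (B : ℝ) * 1 ≤ B * ε ^ (-(3 / 4) : ℝ) := by gcongr
            linarith
        _ = _ := by rw [hC2]; ring
  have hL : (N : ℝ) ^ A ≤ T / (N : ℝ) ^ B := by
    rw [le_div_iff₀ (by positivity), ← pow_add, ← Real.rpow_natCast]
    refine le_trans ?_ hT
    apply Real.rpow_le_rpow_of_exponent_le hN1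
    push_cast
    exact hAB
  have hTe : (N : ℝ) ^ e ≤ T ^ ε := by
    calc (N : ℝ) ^ e ≤ (N : ℝ) ^ (C2 * ε ^ (-(3 / 4) : ℝ) * ε) := by
          apply Real.rpow_le_rpow_of_exponent_le hN1
          have h1 : C2 * ε ^ (-(3 / 4) : ℝ) * ε = C2 * ε ^ (1 / 4 : ℝ) := by
            rw [mul_assoc]
            congr 1
            nth_rewrite 2 [← Real.rpow_one ε]
            rw [← Real.rpow_add hε]
            norm_num
          rw [h1]
          exact min_le_right _ _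
      _ = ((N : ℝ) ^ (C2 * ε ^ (-(3 / 4) : ℝ))) ^ ε := by rw [← Real.rpow_mul hN0.le]
      _ ≤ T ^ ε := Real.rpow_le_rpow (Real.rpow_nonneg hN0.le _) hT hε.le
  have h2 := hmain N R hN I hI hR τ w x (T / (N : ℝ) ^ B) hL (fun s hs => ⟨(hw s hs).1, by
    rw [mul_div_cancel₀ _ (by positivity : ((N : ℝ) ^ B) ≠ 0)]
    exact (hw s hs).2⟩) hS hsep
  refine le_trans (measure_mono ?_) h2
  rintro u ⟨hu, a, ha⟩
  refine ⟨hu, a, lt_of_le_of_lt ?_ ha⟩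
  gcongr

end Pool.Agent.K9h70.RE
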